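import Mathlib

set_option autoImplicit false

namespace Pool.Agent.Q199.QL

open Filter Topology

/-- Automatic continuity (Pettis): a homomorphism from a Baire topological group to a separable
topological group is continuous if the preimages of open sets have the Baire property. -/
theorem continuous_of_baire {G H : Type*} [AddCommGroup G] [TopologicalSpace G]
    [IsTopologicalAddGroup G] [BaireSpace G] [AddCommGroup H] [TopologicalSpace H]
    [IsTopologicalAddGroup H] [TopologicalSpace.SeparableSpace H] (f : G →+ H)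
    (hf : ∀ s : Set H, IsOpen s → BaireMeasurableSet (f ⁻¹' s)) : Continuous f := by
  refine continuous_of_continuousAt_zero f ?_
  rw [ContinuousAt, map_zero]
  intro U hU
  -- an open neighbourhood with `V - V ⊆ U`
  obtain ⟨V, hVo, hV0, hVU⟩ : ∃ V : Set H, IsOpen V ∧ (0 : H) ∈ V ∧ ∀ a ∈ V, ∀ b ∈ V, a - b ∈ U := by
    have h1 : Tendsto (fun p : H × H => p.1 - p.2) (𝓝 (0, 0)) (𝓝 0) := by
      have hc : Continuous fun p : H × H => p.1 - p.2 := continuous_fst.sub continuous_snd
      have := hc.tendsto (0, 0)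
      rwa [show ((0 : H), (0 : H)).1 - ((0 : H), (0 : H)).2 = 0 from sub_zero 0] at this
    have h2 := h1 hU
    rw [nhds_prod_eq, Filter.mem_map, Filter.mem_prod_iff] at h2
    obtain ⟨A, hA, B, hB, hAB⟩ := h2
    obtain ⟨V, hV, hVo, hV0⟩ := mem_nhds_iff.1 (Filter.inter_mem hA hB)
    exact ⟨V, hVo, hV0, fun a ha b hb =>
      hAB (show (a, b) ∈ A ×ˢ B from ⟨(hV ha).1, (hV hb).2⟩)⟩
  have hne : Nonempty H := ⟨0⟩
  let d := TopologicalSpace.denseSeq H
  have hcover : (⋃ n, f ⁻¹' {h | h - d n ∈ V}) = Set.univ := by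
    rw [Set.eq_univ_iff_forall]
    intro x
    have hopen : IsOpen {y : H | f x - y ∈ V} := hVo.preimage (continuous_const.sub continuous_id)
    obtain ⟨y, hy, n, rfl⟩ := (TopologicalSpace.denseRange_denseSeq H).inter_open_nonempty _ hopen
      ⟨f x, by simpa using hV0⟩
    exact Set.mem_iUnion.2 ⟨n, hy⟩
  have hnm : ∃ n, ¬ IsMeagre (f ⁻¹' {h | h - d n ∈ V}) := by
    by_contra hcon
    push Not at hcon
    have h1 : IsMeagre (Set.univ : Set G) := by
      rw [← hcover]; exact isMeagre_iUnion hcon
    have h2 : (∅ : Set G) ∈ residual G := by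
      rw [IsMeagre, Set.compl_univ] at h1; exact h1
    have h3 := dense_of_mem_residual h2
    obtain ⟨x, hx, hx'⟩ := h3.inter_open_nonempty Set.univ isOpen_univ ⟨0, trivial⟩
    exact hx'
  obtain ⟨n, hn⟩ := hnm
  obtain ⟨A, hA⟩ : ∃ A : Set G, A = f ⁻¹' {h | h - d n ∈ V} := ⟨_, rfl⟩
  rw [← hA] at hn
  have hAb : BaireMeasurableSet A := by
    rw [hA]
    exact hf _ (hVo.preimage (continuous_id.sub continuous_const))
  obtain ⟨O, hO, hAO⟩ := hAb.residualEq_isOpen
  have hOne : O.Nonempty := by
    rw [Set.nonempty_iff_ne_empty]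
    intro h
    apply hn
    rw [IsMeagre]
    filter_upwards [hAO] with y hy
    intro hyA
    have : y ∈ O := by
      have h1 : A y = O y := hy
      show O y
      rw [← h1]; exact hyA
    rw [h] at this
    exact this
  obtain ⟨o, ho⟩ := hOne
  -- the neighbourhood of zero
  have hnb : {x : G | o - x ∈ O} ∈ 𝓝 (0 : G) := by
    refine (hO.preimage (continuous_const.sub continuous_id)).mem_nhds ?_
    show o - 0 ∈ O
    rwa [sub_zero]
  rw [Filter.mem_map]
  filter_upwards [hnb] with x hx
  -- find `a` and `a - x` in `A`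
  have hopen : IsOpen (O ∩ {y | y - x ∈ O}) :=
    hO.inter (hO.preimage (continuous_id.sub continuous_const))
  have h1 : ∀ᶠ y in residual G, (y ∈ A ↔ y ∈ O) := by
    filter_upwards [hAO] with y hy
    have h1 : A y = O y := hy
    show A y ↔ O y
    rw [h1]
  have h2 : ∀ᶠ y in residual G, (y - x ∈ A ↔ y - x ∈ O) := by
    have ht : Tendsto (fun y : G => y - x) (residual G) (residual G) :=
      tendsto_residual_of_isOpenMap (continuous_id.sub continuous_const)
        (Homeomorph.subRight x).isOpenMap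
    exact ht.eventually h1
  have hdense := dense_of_mem_residual (h1.and h2)
  obtain ⟨a, ha, ha'⟩ := hdense.inter_open_nonempty _ hopen ⟨o, ho, hx⟩
  have haA : a ∈ A := ha'.1.2 ha.1
  have haA' : a - x ∈ A := ha'.2.2 ha.2
  rw [hA] at haA haA'
  have h3 : f x = (f a - d n) - (f (a - x) - d n) := by
    rw [map_sub]; abel
  show f x ∈ U
  rw [h3]
  exact hVU _ haA _ haA'

end Pool.Agent.Q199.QL
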