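import Mathlib

set_option autoImplicit false

namespace Pool.Agent.Q199.QL

/-- `τ` is a Polish vector space topology on the subspace `V` of the normed space `X` whose Borel
sets are the Borel subsets of `X` contained in `V`. -/
def IsGoodTopology {X : Type*} [NormedAddCommGroup X] [NormedSpace ℝ X] (V : Submodule ℝ X)
    (τ : TopologicalSpace V) : Prop :=
  @IsTopologicalAddGroup V τ _ ∧ @ContinuousSMul ℝ V _ _ τ ∧ @PolishSpace V τ ∧
    ∀ s : Set V, @MeasurableSet V (@borel V τ) s ↔
      @MeasurableSet X (borel X) ((fun v : V => (v : X)) '' s)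

/-- The topology `τ` on the real vector space `V` is induced by a norm `p`. -/
def IsNormable {V : Type*} [AddCommGroup V] [Module ℝ V] (τ : TopologicalSpace V) : Prop :=
  ∃ p : Seminorm ℝ V, (∀ x, p x = 0 → x = 0) ∧
    ∀ s : Set V, @IsOpen V τ s ↔ ∀ x ∈ s, ∃ r : ℝ, 0 < r ∧ ∀ y, p (y - x) < r → y ∈ s

end Pool.Agent.Q199.QL
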