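import Mathlib
import Pool.Agent.Q199.QL.Defs
import Pool.Agent.Q199.QL.Auto

set_option autoImplicit false

namespace Pool.Agent.Q199.QL

open Filter Topology ZeroAtInfty

/-- `t ↦ t log |t|` -/
noncomputable def gg (t : ℝ) : ℝ := t * Real.log t

lemma gg_cont : Continuous gg := Real.continuous_mul_log

lemma gg_zero : gg 0 = 0 := by simp [gg]

lemma gg_neg (t : ℝ) : gg (-t) = -gg t := by simp [gg, Real.log_neg_eq_log]

lemma gg_mul (s t : ℝ) : gg (s * t) = s * gg t + gg s * t := by
  unfold gg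
  by_cases hs : s = 0
  · simp [hs]
  by_cases ht : t = 0
  · simp [ht]
  rw [Real.log_mul hs ht]; ring

lemma gg_abs_le {t : ℝ} (ht : |t| ≤ 1) : |gg t| ≤ 1 := by
  by_cases h0 : t = 0
  · rw [h0, gg_zero]; simp
  · have hpos : 0 < |t| := abs_pos.2 h0
    have h := (Real.abs_log_mul_self_lt |t| hpos ht).le
    unfold gg
    rw [abs_mul] at h ⊢
    rw [Real.log_abs, abs_abs] at h
    linarith

/-- the almost additivity of `gg` -/
lemma gg_add (a b : ℝ) : |gg (a + b) - gg a - gg b| ≤ 3 * (|a| + |b|) := by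
  by_cases hs : |a| + |b| = 0
  · have ha : a = 0 := abs_nonpos_iff.1 (by linarith [abs_nonneg b])
    have hb : b = 0 := abs_nonpos_iff.1 (by linarith [abs_nonneg a])
    rw [ha, hb]; simp [gg_zero]
  · obtain ⟨s, hsdef⟩ : ∃ s, s = |a| + |b| := ⟨_, rfl⟩
    rw [← hsdef] at hs ⊢
    have hspos : 0 < s := lt_of_le_of_ne (by rw [hsdef]; positivity) (Ne.symm hs)
    have ha : a = s * (a / s) := by field_simp
    have hb : b = s * (b / s) := by field_simp
    have hab : a + b = s * ((a + b) / s) := by field_simp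
    have h1 : |a / s| ≤ 1 := by
      rw [abs_div, abs_of_pos hspos, div_le_one hspos]; linarith [abs_nonneg b]
    have h2 : |b / s| ≤ 1 := by
      rw [abs_div, abs_of_pos hspos, div_le_one hspos]; linarith [abs_nonneg a]
    have h3 : |(a + b) / s| ≤ 1 := by
      rw [abs_div, abs_of_pos hspos, div_le_one hspos, hsdef]; exact abs_add_le a b
    have e : gg (a + b) - gg a - gg b = s * (gg ((a + b) / s) - gg (a / s) - gg (b / s)) := by
      have k1 : gg (a + b) = s * gg ((a + b) / s) + gg s * ((a + b) / s) := by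
        conv_lhs => rw [hab]
        exact gg_mul _ _
      have k2 : gg a = s * gg (a / s) + gg s * (a / s) := by
        conv_lhs => rw [ha]
        exact gg_mul _ _
      have k3 : gg b = s * gg (b / s) + gg s * (b / s) := by
        conv_lhs => rw [hb]
        exact gg_mul _ _
      rw [k1, k2, k3]; ring
    rw [e, abs_mul, abs_of_pos hspos]
    have h4 : |gg ((a + b) / s) - gg (a / s) - gg (b / s)| ≤ 3 := by
      have := gg_abs_le h1
      have := gg_abs_le h2
      have := gg_abs_le h3
      have := abs_sub (gg ((a + b) / s)) (gg (a / s))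
      have := abs_sub (gg ((a + b) / s) - gg (a / s)) (gg (b / s))
      linarith
    nlinarith

/-- the real space `ℓ₁` -/
abbrev L1 : Type := lp (fun _ : ℕ => ℝ) 1

lemma l1_summable (x : L1) : Summable fun i => |x i| := by
  have h := (lp.memℓp x).summable (by simp)
  simpa using h

lemma l1_norm (x : L1) : ‖x‖ = ∑' i, |x i| := by
  rw [lp.norm_eq_tsum_rpow (by simp)]; simp

lemma l1_coord_le (x : L1) (i : ℕ) : |x i| ≤ ‖x‖ := by
  rw [l1_norm]
  exact (l1_summable x).le_tsum i fun _ _ => abs_nonneg _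

lemma l1_mem {f : ℕ → ℝ} (hf : Summable fun i => |f i|) : Memℓp f 1 := by
  rw [memℓp_gen_iff (by simp)]
  simpa using hf

/-- construct an element of `ℓ₁` -/
noncomputable def mk1 (f : ℕ → ℝ) (hf : Summable fun i => |f i|) : L1 := ⟨f, l1_mem hf⟩

lemma mk1_apply (f : ℕ → ℝ) (hf : Summable fun i => |f i|) (i : ℕ) : mk1 f hf i = f i := rfl

instance l1_separable : TopologicalSpace.SeparableSpace L1 := by
  have h1 : TopologicalSpace.IsSeparable
      (Set.range fun i : ℕ => (lp.single 1 i (1 : ℝ) : L1)) :=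
    (Set.countable_range _).isSeparable
  have h2 := (h1.span (R := ℝ)).closure
  have h3 : closure (Submodule.span ℝ (Set.range fun i : ℕ => (lp.single 1 i (1 : ℝ) : L1)) :
      Set L1) = Set.univ := by
    rw [Set.eq_univ_iff_forall]
    intro x
    have hx := lp.hasSum_single (E := fun _ : ℕ => ℝ) (p := 1) (by simp) x
    refine mem_closure_of_tendsto hx (Filter.Eventually.of_forall fun s => ?_)
    refine Submodule.sum_mem _ fun i _ => ?_
    have h4 : (lp.single 1 i (x i) : L1) = x i • lp.single 1 i (1 : ℝ) := by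
      rw [← lp.single_smul]; simp
    rw [h4]
    exact Submodule.smul_mem _ _ (Submodule.subset_span ⟨i, rfl⟩)
  rw [h3] at h2
  exact TopologicalSpace.isSeparable_univ_iff.1 h2

/-- the real space `c₀` -/
abbrev CZ : Type := C₀(ℕ, ℝ)

lemma cz_bound (f : CZ) (i : ℕ) : |f i| ≤ ‖f‖ := by
  rw [← ZeroAtInftyContinuousMap.norm_toBCF_eq_norm]
  exact BoundedContinuousFunction.norm_coe_le_norm f.toBCF i

lemma cz_norm_le (f : CZ) {C : ℝ} (hC : 0 ≤ C) (h : ∀ i, |f i| ≤ C) : ‖f‖ ≤ C := by
  rw [← ZeroAtInftyContinuousMap.norm_toBCF_eq_norm]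
  exact (BoundedContinuousFunction.norm_le hC).2 h

/-- null sequences as members of `c₀` -/
noncomputable def mkZ (f : ℕ → ℝ) (hf : Tendsto f atTop (𝓝 0)) : CZ where
  toFun := f
  continuous_toFun := continuous_of_discreteTopology
  zero_at_infty' := by
    rw [Filter.cocompact_eq_cofinite, Nat.cofinite_eq_atTop]; exact hf

lemma mkZ_apply (f : ℕ → ℝ) (hf : Tendsto f atTop (𝓝 0)) (i : ℕ) : mkZ f hf i = f i := rfl

lemma cz_tendsto (f : CZ) : Tendsto f atTop (𝓝 0) := by
  have h := f.zero_at_infty'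
  rw [Filter.cocompact_eq_cofinite, Nat.cofinite_eq_atTop] at h
  exact h

/-- unit vectors -/
noncomputable def ez (n : ℕ) : CZ := mkZ (fun i => if i = n then 1 else 0) (by
  refine tendsto_const_nhds.congr' ?_
  filter_upwards [Filter.eventually_gt_atTop n] with i hi
  simp [hi.ne'])

lemma ez_apply (n i : ℕ) : ez n i = if i = n then 1 else 0 := rfl

lemma ez_dense (u : CZ) : u ∈ closure (Submodule.span ℝ (Set.range ez) : Set CZ) := by
  rw [Metric.mem_closure_iff]
  intro ε hε
  have ht : Tendsto (fun i => |u i|) atTop (𝓝 0) := by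
    have := (cz_tendsto u).abs
    rwa [abs_zero] at this
  obtain ⟨n, hn⟩ := Filter.eventually_atTop.1 (ht.eventually (gt_mem_nhds (half_pos hε)))
  refine ⟨∑ i ∈ Finset.range (n + 1), u i • ez i,
    Submodule.sum_mem _ fun i _ => Submodule.smul_mem _ _ (Submodule.subset_span ⟨i, rfl⟩), ?_⟩
  have h3 : ∀ (s : Finset ℕ) (k : ℕ), (∑ i ∈ s, u i • ez i) k = if k ∈ s then u k else 0 := by
    intro s k
    induction s using Finset.induction_on with
    | empty => simp
    | insert a s ha ih =>
      rw [Finset.sum_insert ha, ZeroAtInftyContinuousMap.add_apply, ih,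
        ZeroAtInftyContinuousMap.smul_apply, ez_apply, smul_eq_mul]
      by_cases hka : k = a
      · subst hka; simp [ha]
      · simp [hka]
  rw [dist_eq_norm]
  refine lt_of_le_of_lt (cz_norm_le _ (half_pos hε).le fun k => ?_) (half_lt_self hε)
  rw [ZeroAtInftyContinuousMap.sub_apply, h3]
  by_cases hk : k ∈ Finset.range (n + 1)
  · simp only [hk, if_true, sub_self, abs_zero]; positivity
  · simp only [hk, if_false, sub_zero]
    rw [Finset.mem_range, not_lt] at hk
    exact (hn k (by omega)).le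

instance cz_separable : TopologicalSpace.SeparableSpace CZ := by
  have h1 : TopologicalSpace.IsSeparable (Set.range ez) := (Set.countable_range _).isSeparable
  have h2 := (h1.span (R := ℝ)).closure
  have h3 : closure (Submodule.span ℝ (Set.range ez) : Set CZ) = Set.univ :=
    Set.eq_univ_iff_forall.2 ez_dense
  rw [h3] at h2
  exact TopologicalSpace.isSeparable_univ_iff.1 h2

lemma l1_tendsto (x : L1) : Tendsto (fun i => x i) atTop (𝓝 0) := by
  have h := (l1_summable x).tendsto_atTop_zero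
  exact (tendsto_zero_iff_abs_tendsto_zero _).2 h

/-- the quasi-linear map `x ↦ (x_i log |x_i|)` -/
noncomputable def phi (x : L1) : CZ := mkZ (fun i => gg (x i)) (by
  have h := gg_cont.tendsto 0
  rw [gg_zero] at h
  exact h.comp (l1_tendsto x))

lemma phi_apply (x : L1) (i : ℕ) : phi x i = gg (x i) := rfl

lemma phi_continuous : Continuous phi := by
  rw [Metric.continuous_iff]
  intro x ε hε
  have huc : UniformContinuousOn gg (Set.Icc (-(‖x‖ + 1)) (‖x‖ + 1)) :=
    isCompact_Icc.uniformContinuousOn_of_continuous gg_cont.continuousOn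
  obtain ⟨δ, hδ, hδ'⟩ := Metric.uniformContinuousOn_iff.1 huc (ε / 2) (half_pos hε)
  refine ⟨min δ 1, lt_min hδ one_pos, fun y hy => ?_⟩
  rw [dist_eq_norm] at hy ⊢
  refine lt_of_le_of_lt (cz_norm_le _ (half_pos hε).le fun i => ?_) (half_lt_self hε)
  rw [ZeroAtInftyContinuousMap.sub_apply, phi_apply, phi_apply]
  have h1 : |y i - x i| ≤ ‖y - x‖ := l1_coord_le (y - x) i
  have h2 : |x i| ≤ ‖x‖ := l1_coord_le x i
  have h3 : ‖y - x‖ < δ := hy.trans_le (min_le_left _ _)
  have h4 : ‖y - x‖ < 1 := hy.trans_le (min_le_right _ _)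
  have h5 := abs_le.1 h2
  have h6 := abs_le.1 (h1.trans h4.le)
  have h7 := hδ' (y i) ⟨by linarith, by linarith⟩ (x i) ⟨by linarith, by linarith⟩
    (by rw [Real.dist_eq]; exact h1.trans_lt h3)
  rw [Real.dist_eq] at h7
  exact h7.le

/-- the inclusion of `ℓ₁` in `c₀` -/
noncomputable def jj : L1 →ₗ[ℝ] CZ where
  toFun := fun x => mkZ (fun i => x i) (l1_tendsto x)
  map_add' := by intro x y; ext i; rfl
  map_smul' := by intro c x; ext i; rfl

lemma jj_apply (x : L1) (i : ℕ) : jj x i = x i := rfl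

lemma jj_inj : Function.Injective jj := by
  intro x y h
  ext i
  have := DFunLike.congr_fun h i
  exact this

lemma jj_norm (x : L1) : ‖jj x‖ ≤ ‖x‖ := cz_norm_le _ (norm_nonneg _) fun i => l1_coord_le x i

/-- the additivity defect as an element of `ℓ₁` -/
noncomputable def BB (p : L1 × L1) : L1 :=
  mk1 (fun i => gg (p.1 i + p.2 i) - gg (p.1 i) - gg (p.2 i)) (by
    refine Summable.of_nonneg_of_le (fun i => abs_nonneg _) (fun i => gg_add _ _) ?_
    exact ((l1_summable p.1).add (l1_summable p.2)).mul_left 3)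

lemma BB_apply (p : L1 × L1) (i : ℕ) :
    BB p i = gg (p.1 i + p.2 i) - gg (p.1 i) - gg (p.2 i) := rfl

lemma tail_le (x : L1) (N : ℕ) : ∑' i, |x (i + N)| ≤ ‖x‖ := by
  rw [l1_norm, ← (l1_summable x).sum_add_tsum_nat_add N]
  have : 0 ≤ ∑ i ∈ Finset.range N, |x i| := Finset.sum_nonneg fun _ _ => abs_nonneg _
  linarith

lemma coord_continuous (i : ℕ) : Continuous fun x : L1 => x i := by
  refine continuous_iff_continuousAt.2 fun x => ?_
  rw [Metric.continuousAt_iff]
  intro ε hε
  refine ⟨ε, hε, fun y hy => ?_⟩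
  rw [dist_eq_norm] at hy
  rw [Real.dist_eq]
  exact (l1_coord_le (y - x) i).trans_lt hy

lemma BB_continuous : Continuous BB := by
  rw [continuous_iff_continuousAt]
  rintro ⟨x, y⟩
  rw [Metric.continuousAt_iff]
  intro ε hε
  -- tail index
  have ht : Tendsto (fun N => 3 * (2 * (∑' i, |x (i + N)| + ∑' i, |y (i + N)|))) atTop
      (𝓝 (3 * (2 * (0 + 0)))) := by
    have h1 := tendsto_sum_nat_add fun i => |x i|
    have h2 := tendsto_sum_nat_add fun i => |y i|
    exact ((h1.add h2).const_mul 2).const_mul 3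
  obtain ⟨N, hN⟩ := (ht.eventually (gt_mem_nhds (show 3 * (2 * ((0 : ℝ) + 0)) < ε / 3 by
    simp; positivity))).exists
  -- finite part
  have hfin : ContinuousAt (fun p : L1 × L1 => ∑ i ∈ Finset.range N, |BB p i - BB (x, y) i|)
      (x, y) := by
    have : Continuous fun p : L1 × L1 => ∑ i ∈ Finset.range N, |BB p i - BB (x, y) i| := by
      refine continuous_finsetSum _ fun i _ => ?_
      have h1 : Continuous fun p : L1 × L1 => p.1 i := (coord_continuous i).comp continuous_fst
      have h2 : Continuous fun p : L1 × L1 => p.2 i := (coord_continuous i).comp continuous_snd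
      have h3 : Continuous fun p : L1 × L1 => BB p i :=
        ((gg_cont.comp (h1.add h2)).sub (gg_cont.comp h1)).sub (gg_cont.comp h2)
      exact (h3.sub continuous_const).abs
    exact this.continuousAt
  have hfin0 : ∑ i ∈ Finset.range N, |BB (x, y) i - BB (x, y) i| = 0 := by simp
  obtain ⟨δ, hδ, hδ'⟩ := Metric.continuousAt_iff.1 hfin (ε / 3) (by positivity)
  refine ⟨min δ (ε / 36), lt_min hδ (by positivity), fun p hp => ?_⟩
  have hp1 := hδ' (hp.trans_le (min_le_left _ _))
  rw [hfin0, Real.dist_eq, sub_zero] at hp1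
  have hp2 : dist p (x, y) < ε / 36 := hp.trans_le (min_le_right _ _)
  rw [Prod.dist_eq, max_lt_iff, dist_eq_norm, dist_eq_norm] at hp2
  rw [dist_eq_norm, l1_norm, ← (l1_summable _).sum_add_tsum_nat_add N]
  have hA : ∑ i ∈ Finset.range N, |(BB p - BB (x, y)) i| < ε / 3 :=
    lt_of_le_of_lt (le_abs_self _) hp1
  have hs : ∀ z : L1, Summable fun i => |z (i + N)| := fun z =>
    (summable_nat_add_iff N).2 (l1_summable z)
  have hB : ∑' i, |(BB p - BB (x, y)) (i + N)| ≤
      3 * (∑' i, |p.1 (i + N)| + ∑' i, |p.2 (i + N)|) +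
      3 * (∑' i, |x (i + N)| + ∑' i, |y (i + N)|) := by
    rw [← (hs p.1).tsum_add (hs p.2), ← (hs x).tsum_add (hs y), ← tsum_mul_left, ← tsum_mul_left,
      ← (((hs p.1).add (hs p.2)).mul_left 3).tsum_add (((hs x).add (hs y)).mul_left 3)]
    refine (hs _).tsum_le_tsum (fun i => ?_)
      ((((hs p.1).add (hs p.2)).mul_left 3).add (((hs x).add (hs y)).mul_left 3))
    have h1 := gg_add (p.1 (i + N)) (p.2 (i + N))
    have h2 := gg_add (x (i + N)) (y (i + N))
    have h3 : (BB p - BB (x, y)) (i + N) = BB p (i + N) - BB (x, y) (i + N) := rfl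
    rw [h3, BB_apply, BB_apply]
    exact (abs_sub _ _).trans (add_le_add h1 h2)
  have hC : ∀ z w : L1, ∑' i, |z (i + N)| ≤ ∑' i, |w (i + N)| + ‖z - w‖ := by
    intro z w
    have h1 : ∑' i, |z (i + N)| ≤ ∑' i, (|w (i + N)| + |(z - w) (i + N)|) := by
      refine (hs z).tsum_le_tsum (fun i => ?_) ((hs w).add (hs (z - w)))
      have h2 : z (i + N) = w (i + N) + (z - w) (i + N) := by
        show z (i + N) = w (i + N) + (z (i + N) - w (i + N))
        ring
      calc |z (i + N)| = |w (i + N) + (z - w) (i + N)| := by rw [← h2]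
        _ ≤ _ := abs_add_le _ _
    rw [(hs w).tsum_add (hs (z - w))] at h1
    linarith [tail_le (z - w) N]
  have c1 := hC p.1 x
  have c2 := hC p.2 y
  linarith [hp2.1, hp2.2]

end Pool.Agent.Q199.QL
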