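import Mathlib
import Pool.Agent.Q199.QL.Defs
import Pool.Agent.Q199.QL.Auto
import Pool.Agent.Q199.QL.Spaces

set_option autoImplicit false

namespace Pool.Agent.Q199.QL

open Filter Topology ZeroAtInfty

/-- Two good topologies on the same subspace coincide. -/
lemma good_le {X : Type*} [NormedAddCommGroup X] [NormedSpace ℝ X] {V : Submodule ℝ X}
    {τ₁ τ₂ : TopologicalSpace V} (h1 : IsGoodTopology V τ₁) (h2 : IsGoodTopology V τ₂) :
    τ₁ ≤ τ₂ := by
  obtain ⟨a1, b1, c1, d1⟩ := h1
  obtain ⟨a2, b2, c2, d2⟩ := h2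
  have hsep : @TopologicalSpace.SeparableSpace V τ₂ := by
    letI := τ₂
    haveI : PolishSpace V := c2
    infer_instance
  have hbaire : @BaireSpace V τ₁ := by
    letI := τ₁
    haveI : PolishSpace V := c1
    infer_instance
  have hmeas : ∀ s : Set V, @IsOpen V τ₂ s → @BaireMeasurableSet V τ₁ s := by
    intro s hs
    have h3 : @MeasurableSet V (@borel V τ₂) s := by
      letI := τ₂
      exact MeasurableSpace.measurableSet_generateFrom hs
    have h4 : @MeasurableSet V (@borel V τ₁) s := (d1 s).2 ((d2 s).1 h3)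
    letI := τ₁
    letI : MeasurableSpace V := borel V
    haveI : BorelSpace V := ⟨rfl⟩
    exact MeasurableSet.baireMeasurableSet h4
  have hcont := @continuous_of_baire V V _ τ₁ a1 hbaire _ τ₂ a2 hsep (AddMonoidHom.id V)
    (fun s hs => hmeas s hs)
  exact continuous_id_iff_le.1 hcont

lemma good_unique {X : Type*} [NormedAddCommGroup X] [NormedSpace ℝ X] {V : Submodule ℝ X}
    {τ₁ τ₂ : TopologicalSpace V} (h1 : IsGoodTopology V τ₁) (h2 : IsGoodTopology V τ₂) :
    τ₁ = τ₂ := le_antisymm (good_le h1 h2) (good_le h2 h1)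

lemma phi_quasi (a b : ℝ) (x y : L1) :
    phi (a • x + b • y) - (a • phi x + b • phi y) =
      jj (BB (a • x, b • y) + gg a • x + gg b • y) := by
  ext i
  show gg (a * x i + b * y i) - (a * gg (x i) + b * gg (y i)) =
    (gg (a * x i + b * y i) - gg (a * x i) - gg (b * y i)) + gg a * x i + gg b * y i
  rw [gg_mul a, gg_mul b]; ring

/-- the preimage of `ℓ₁` -/
noncomputable def VV : Submodule ℝ L1 where
  carrier := {x | phi x ∈ Set.range jj}
  zero_mem' := ⟨0, by ext i; show (0 : ℝ) = gg 0; rw [gg_zero]⟩
  add_mem' := by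
    rintro x y ⟨m, hm⟩ ⟨k, hk⟩
    have h := phi_quasi 1 1 x y
    rw [one_smul, one_smul, one_smul, one_smul, ← hm, ← hk] at h
    refine ⟨BB (x, y) + gg 1 • x + gg 1 • y + (m + k), ?_⟩
    rw [map_add, ← h, map_add]
    abel
  smul_mem' := by
    rintro c x ⟨m, hm⟩
    have h := phi_quasi c 0 x x
    rw [zero_smul, zero_smul, add_zero, add_zero, ← hm] at h
    refine ⟨BB (c • x, 0) + gg c • x + gg 0 • x + c • m, ?_⟩
    rw [map_add, ← h, map_smul]
    abel

lemma mem_VV (x : L1) : x ∈ VV ↔ phi x ∈ Set.range jj := Iff.rfl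

/-- the second coordinate of the graph -/
noncomputable def psi (x : VV) : L1 := x.2.choose

lemma psi_apply (x : VV) (i : ℕ) : psi x i = gg ((x : L1) i) := by
  have h := x.2.choose_spec
  exact DFunLike.congr_fun h i

/-- the graph map -/
noncomputable def Gam (x : VV) : L1 × L1 := ((x : L1), psi x)

lemma Gam_inj : Function.Injective Gam := by
  intro x y h
  exact Subtype.ext (congrArg Prod.fst h)

lemma mem_range_Gam (p : L1 × L1) : p ∈ Set.range Gam ↔ ∀ i, p.2 i = gg (p.1 i) := by
  constructor
  · rintro ⟨x, rfl⟩ i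
    exact psi_apply x i
  · intro h
    have hx : p.1 ∈ VV := ⟨p.2, by ext i; exact h i⟩
    refine ⟨⟨p.1, hx⟩, Prod.ext rfl ?_⟩
    ext i
    show psi ⟨p.1, hx⟩ i = p.2 i
    rw [psi_apply, h]

lemma range_closed : IsClosed (Set.range Gam) := by
  have h : Set.range Gam = ⋂ i, {p : L1 × L1 | p.2 i = gg (p.1 i)} := by
    ext p
    rw [mem_range_Gam, Set.mem_iInter]; rfl
  rw [h]
  refine isClosed_iInter fun i => isClosed_eq ?_ ?_
  · exact (coord_continuous i).comp continuous_snd
  · exact gg_cont.comp ((coord_continuous i).comp continuous_fst)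

/-- the topology of the graph -/
noncomputable def tau : TopologicalSpace VV := TopologicalSpace.induced Gam inferInstance

lemma Gam_cont : @Continuous VV (L1 × L1) tau _ Gam := continuous_induced_dom

lemma psi_add (x y : VV) : psi (x + y) = psi x + psi y + BB ((x : L1), (y : L1)) := by
  ext i
  show psi (x + y) i = psi x i + psi y i + BB ((x : L1), (y : L1)) i
  rw [psi_apply, psi_apply, psi_apply, BB_apply]
  show gg ((x : L1) i + (y : L1) i) = _
  ring

lemma psi_neg (x : VV) : psi (-x) = -psi x := by
  ext i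
  show psi (-x) i = -psi x i
  rw [psi_apply, psi_apply, ← gg_neg]
  rfl

lemma psi_smul (c : ℝ) (x : VV) : psi (c • x) = c • psi x + gg c • (x : L1) := by
  ext i
  show psi (c • x) i = c * psi x i + gg c * (x : L1) i
  rw [psi_apply, psi_apply, ← gg_mul]
  rfl

lemma tau_good : IsGoodTopology VV tau := by
  letI := tau
  have hG : Continuous Gam := Gam_cont
  have hG1 : Continuous fun x : VV => (x : L1) := continuous_fst.comp hG
  have hG2 : Continuous psi := continuous_snd.comp hG
  have hemb : Topology.IsClosedEmbedding Gam :=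
    ⟨⟨⟨rfl⟩, Gam_inj⟩, range_closed⟩
  have hpol : PolishSpace VV := hemb.polishSpace
  refine ⟨?_, ?_, hpol, ?_⟩
  · have hadd : Continuous fun p : VV × VV => p.1 + p.2 := by
      refine continuous_induced_rng.2 ?_
      show Continuous fun p : VV × VV => ((p.1 : L1) + (p.2 : L1), psi (p.1 + p.2))
      refine (((hG1.comp continuous_fst).add (hG1.comp continuous_snd))).prodMk ?_
      have : (fun p : VV × VV => psi (p.1 + p.2)) = fun p : VV × VV =>
          psi p.1 + psi p.2 + BB ((p.1 : L1), (p.2 : L1)) := by
        funext p; exact psi_add _ _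
      rw [this]
      exact ((hG2.comp continuous_fst).add (hG2.comp continuous_snd)).add
        (BB_continuous.comp ((hG1.comp continuous_fst).prodMk (hG1.comp continuous_snd)))
    have hneg : Continuous fun p : VV => -p := by
      refine continuous_induced_rng.2 ?_
      show Continuous fun p : VV => (-(p : L1), psi (-p))
      refine hG1.neg.prodMk ?_
      have : (fun p : VV => psi (-p)) = fun p : VV => -psi p := by
        funext p; exact psi_neg _
      rw [this]
      exact hG2.neg
    exact { continuous_add := hadd, continuous_neg := hneg }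
  · refine ⟨?_⟩
    refine continuous_induced_rng.2 ?_
    show Continuous fun p : ℝ × VV => (p.1 • (p.2 : L1), psi (p.1 • p.2))
    refine (continuous_fst.smul (hG1.comp continuous_snd)).prodMk ?_
    have : (fun p : ℝ × VV => psi (p.1 • p.2)) = fun p : ℝ × VV =>
        p.1 • psi p.2 + gg p.1 • (p.2 : L1) := by
      funext p; exact psi_smul _ _
    rw [this]
    exact (continuous_fst.smul (hG2.comp continuous_snd)).add
      ((gg_cont.comp continuous_fst).smul (hG1.comp continuous_snd))
  · intro s
    letI : MeasurableSpace VV := borel VV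
    haveI : BorelSpace VV := ⟨rfl⟩
    letI : MeasurableSpace L1 := borel L1
    haveI : BorelSpace L1 := ⟨rfl⟩
    have hm : MeasurableEmbedding fun x : VV => (x : L1) :=
      hG1.measurableEmbedding Subtype.val_injective
    exact (hm.measurableSet_image).symm

/-- finitely supported test vectors -/
noncomputable def vec (f : ℕ → ℝ) (N : ℕ) (hf : ∀ i, N ≤ i → f i = 0) : VV := by
  have hs : ∀ g : ℕ → ℝ, (∀ i, N ≤ i → g i = 0) → Summable fun i => |g i| := by
    intro g hg
    refine summable_of_ne_finset_zero (s := Finset.range N) fun i hi => ?_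
    rw [hg i (by simpa using hi), abs_zero]
  exact ⟨mk1 f (hs f hf), ⟨mk1 (fun i => gg (f i)) (hs _ fun i hi => by rw [hf i hi, gg_zero]),
    by ext i; rfl⟩⟩

lemma vec_apply (f : ℕ → ℝ) (N : ℕ) (hf : ∀ i, N ≤ i → f i = 0) (i : ℕ) :
    ((vec f N hf : VV) : L1) i = f i := rfl

lemma norm_fin (x : L1) (N : ℕ) (hx : ∀ i, N ≤ i → x i = 0) :
    ‖x‖ = ∑ i ∈ Finset.range N, |x i| := by
  rw [l1_norm]
  refine tsum_eq_sum fun i hi => ?_
  rw [hx i (by simpa using hi), abs_zero]

/-- The topology `tau` is not normable. -/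
theorem tau_not_normable : ¬ IsNormable tau := by
  classical
  rintro ⟨p, _, hp⟩
  -- the unit ball of `p` is open
  have hBopen : @IsOpen VV tau {x | p x < 1} := by
    rw [hp]
    intro x hx
    refine ⟨1 - p x, by simpa using hx, fun y hy => ?_⟩
    show p y < 1
    have h1 : p y ≤ p (y - x) + p x := by
      have := map_add_le_add p (y - x) x
      rwa [sub_add_cancel] at this
    linarith
  obtain ⟨O, hO, hOB⟩ := isOpen_induced_iff.1 hBopen
  have h0O : ((0 : L1), (0 : L1)) ∈ O := by
    have h1 : (0 : VV) ∈ Gam ⁻¹' O := by rw [hOB]; show p 0 < 1; rw [map_zero]; exact one_pos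
    have h2 : Gam 0 = (0, 0) := by
      refine Prod.ext rfl ?_
      ext i
      show psi 0 i = 0
      rw [psi_apply]
      exact gg_zero
    show ((0 : L1), (0 : L1)) ∈ O
    rw [← h2]; exact h1
  obtain ⟨ρ, hρ, hball⟩ := Metric.isOpen_iff.1 hO _ h0O
  -- a small positive `t`
  obtain ⟨t, ht0, ht1, ht2⟩ : ∃ t : ℝ, 0 < t ∧ t < ρ ∧ |gg t| < ρ := by
    have hc := gg_cont.tendsto 0
    rw [gg_zero] at hc
    obtain ⟨η, hη, hη'⟩ := Metric.tendsto_nhds_nhds.1 hc ρ hρ
    refine ⟨min (η / 2) (ρ / 2), by positivity, ?_, ?_⟩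
    · exact (min_le_right _ _).trans_lt (half_lt_self hρ)
    · have h1 : dist (min (η / 2) (ρ / 2)) 0 < η := by
        rw [Real.dist_eq, sub_zero, abs_of_pos (by positivity)]
        exact (min_le_left _ _).trans_lt (half_lt_self hη)
      have := hη' h1
      rwa [Real.dist_eq, sub_zero] at this
  let E : ℕ → VV := fun i => vec (fun k => if k = i then t else 0) (i + 1) (by
    intro k hk; simp [show k ≠ i by omega])
  have hE : ∀ i, p (E i) < 1 := by
    intro i
    have h1 : E i ∈ Gam ⁻¹' O := by
      refine hball ?_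
      rw [Metric.mem_ball, Prod.dist_eq, max_lt_iff, dist_zero_right, dist_zero_right]
      constructor
      · show ‖((E i : VV) : L1)‖ < ρ
        rw [norm_fin _ (i + 1) (by intro k hk; rw [vec_apply]; simp [show k ≠ i by omega])]
        rw [Finset.sum_eq_single i]
        · rw [vec_apply]; simp [abs_of_pos ht0, ht1]
        · intro k _ hk; rw [vec_apply]; simp [hk]
        · intro h; exact absurd (Finset.mem_range.2 (Nat.lt_succ_self i)) h
      · show ‖psi (E i)‖ < ρ
        rw [norm_fin _ (i + 1) (by
          intro k hk; rw [psi_apply, vec_apply]; simp [show k ≠ i by omega, gg_zero])]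
        rw [Finset.sum_eq_single i]
        · rw [psi_apply, vec_apply]; simp [ht2]
        · intro k _ hk; rw [psi_apply, vec_apply]; simp [hk, gg_zero]
        · intro h; exact absurd (Finset.mem_range.2 (Nat.lt_succ_self i)) h
    rw [hOB] at h1
    exact h1
  -- flat vectors
  let F : ℕ → ℝ → VV := fun n c => vec (fun k => if k < n then c else 0) n (by
    intro k hk; simp [not_lt.2 hk])
  have hFE : ∀ n, 0 < n → ∀ c : ℝ, F n (c * (t / n)) =
      ∑ i ∈ Finset.range n, (c / n) • E i := by
    intro n hn c
    have hn' : (n : ℝ) ≠ 0 := by positivity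
    ext k
    have h1 : (((∑ i ∈ Finset.range n, (c / (n : ℝ)) • E i : VV) : L1)) k =
        ∑ i ∈ Finset.range n, (c / n) * (if k = i then t else 0) := by
      rw [Submodule.coe_sum]
      have h2 : ∀ s : Finset ℕ, (∑ i ∈ s, (((c / (n : ℝ)) • E i : VV) : L1)) k =
          ∑ i ∈ s, (c / n) * (if k = i then t else 0) := by
        intro s
        induction s using Finset.induction_on with
        | empty => simp
        | insert a s ha ih =>
          rw [Finset.sum_insert ha, Finset.sum_insert ha, ← ih]
          rfl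
      exact h2 _
    rw [h1, vec_apply]
    by_cases hk : k < n
    · rw [Finset.sum_eq_single k]
      · simp only [hk, if_true]; field_simp
      · intro i _ hi; simp [hi.symm]
      · intro h; exact absurd (Finset.mem_range.2 hk) h
    · simp only [hk, if_false]
      symm
      refine Finset.sum_eq_zero fun i hi => ?_
      have : k ≠ i := by have := Finset.mem_range.1 hi; omega
      simp [this]
  have hpF : ∀ n, 0 < n → ∀ c : ℝ, 0 < c → p (F n (c * (t / n))) < c := by
    intro n hn c hc
    rw [hFE n hn c]
    have hn' : (0 : ℝ) < n := by positivity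
    have hne : (Finset.range n).Nonempty := Finset.nonempty_range_iff.2 (by omega)
    calc p (∑ i ∈ Finset.range n, (c / n) • E i)
        ≤ ∑ i ∈ Finset.range n, p ((c / (n : ℝ)) • E i) := by
          have h3 : ∀ s : Finset ℕ, p (∑ i ∈ s, (c / (n : ℝ)) • E i) ≤
              ∑ i ∈ s, p ((c / (n : ℝ)) • E i) := by
            intro s
            induction s using Finset.induction_on with
            | empty => simp
            | insert a s ha ih =>
              rw [Finset.sum_insert ha, Finset.sum_insert ha]
              exact (map_add_le_add p _ _).trans (by linarith)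
          exact h3 _
      _ < ∑ i ∈ Finset.range n, c / (n : ℝ) := by
          refine Finset.sum_lt_sum_of_nonempty hne fun i _ => ?_
          rw [map_smul_eq_mul, Real.norm_of_nonneg (by positivity)]
          have := hE i
          have h4 : 0 < c / (n : ℝ) := by positivity
          nlinarith
      _ = c := by
          rw [Finset.sum_const, Finset.card_range, nsmul_eq_mul]
          field_simp
  -- the neighbourhood `‖Gam x‖ < 1`
  have hWopen : @IsOpen VV tau (Gam ⁻¹' Metric.ball 0 1) :=
    isOpen_induced_iff.2 ⟨_, Metric.isOpen_ball, rfl⟩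
  have hG0 : Gam 0 = 0 := by
    refine Prod.ext rfl ?_
    ext i
    show psi 0 i = 0
    rw [psi_apply]
    exact gg_zero
  obtain ⟨r, hr, hr'⟩ := (hp _).1 hWopen 0 (by
    show Gam 0 ∈ Metric.ball 0 1
    rw [hG0]; exact Metric.mem_ball_self one_pos)
  -- contradiction
  obtain ⟨c, hc0, hcr⟩ : ∃ c : ℝ, 0 < c ∧ c < r := ⟨r / 2, by positivity, by linarith⟩
  have hbound : ∀ n : ℕ, 0 < n → (n : ℝ) * |gg (c * (t / n))| < 1 := by
    intro n hn
    have h1 : F n (c * (t / n)) ∈ Gam ⁻¹' Metric.ball 0 1 := by
      refine hr' _ ?_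
      rw [sub_zero]
      exact (hpF n hn c hc0).trans hcr
    have h2 : ‖psi (F n (c * (t / n)))‖ < 1 := by
      have h3 : dist (Gam (F n (c * (t / n)))) 0 < 1 := h1
      rw [dist_zero_right] at h3
      exact (norm_snd_le _).trans_lt h3
    rw [norm_fin _ n (by
      intro k hk; rw [psi_apply, vec_apply]; simp [not_lt.2 hk, gg_zero])] at h2
    have h4 : ∑ i ∈ Finset.range n, |psi (F n (c * (t / n))) i| =
        ∑ i ∈ Finset.range n, |gg (c * (t / n))| := by
      refine Finset.sum_congr rfl fun i hi => ?_
      rw [psi_apply, vec_apply]; simp [Finset.mem_range.1 hi]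
    rw [h4, Finset.sum_const, Finset.card_range, nsmul_eq_mul] at h2
    exact h2
  -- choose `n` large
  obtain ⟨a, ha⟩ : ∃ a, a = c * t := ⟨_, rfl⟩
  have ha0 : 0 < a := by rw [ha]; positivity
  obtain ⟨n, hn⟩ := exists_nat_gt (max 1 (Real.exp (1 / a + Real.log a)))
  have hn1 : (1 : ℝ) < n := (le_max_left _ _).trans_lt hn
  have hn2 : Real.exp (1 / a + Real.log a) < n := (le_max_right _ _).trans_lt hn
  have hnpos : 0 < n := by
    by_contra h
    have : n = 0 := by omega
    rw [this] at hn1; norm_num at hn1
  have hn' : (0 : ℝ) < n := by positivity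
  have h5 := hbound n hnpos
  have h6 : c * (t / n) = a / n := by rw [ha]; ring
  have h7 : (n : ℝ) * |gg (c * (t / n))| = a * |Real.log (a / n)| := by
    rw [h6]; unfold gg
    rw [abs_mul, abs_of_pos (by positivity : 0 < a / n)]
    field_simp
  rw [h7, Real.log_div ha0.ne' hn'.ne'] at h5
  have h8 : 1 / a + Real.log a < Real.log n := by
    rw [← Real.log_exp (1 / a + Real.log a)]
    exact Real.log_lt_log (Real.exp_pos _) hn2
  have h9 : 1 / a < |Real.log a - Real.log n| := by
    have := neg_abs_le (Real.log a - Real.log n)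
    linarith
  have h10 : 1 < a * |Real.log a - Real.log n| := by
    rw [div_lt_iff₀ ha0] at h9
    linarith
  linarith

end Pool.Agent.Q199.QL
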